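import Mathlib
import Pool.Agent.Helper84_Collatz.Basic

set_option autoImplicit false

namespace Pool.Agent.Results.MP_e99302_nt.GarnerRuns

open Pool.Agent.Helper84_Collatz

/-- The Collatz map `C`: `n ↦ n / 2` for even `n` and `n ↦ 3 n + 1` for odd `n`. -/
def collatz (n : ℕ) : ℕ := if n % 2 = 0 then n / 2 else 3 * n + 1

/-- The height `h(n)`: the least `k ≥ 0` with `C^(k)(n) = 1`, and `⊤` if there is no such `k`. -/
noncomputable def height (n : ℕ) : ℕ∞ := ⨅ (k : ℕ) (_ : collatz^[k] n = 1), (k : ℕ∞)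

theorem height_eq {x k : ℕ} (h : collatz^[k] x = 1) (h' : ∀ j < k, collatz^[j] x ≠ 1) :
    height x = k := by
  unfold height
  apply le_antisymm
  · exact iInf₂_le k h
  · refine le_iInf₂ fun j hj => ?_
    have : k ≤ j := by
      by_contra hc
      exact h' j (by omega) hj
    exact_mod_cast this

/-- `K` accelerated steps with `b` odd ones are `K + b` steps of the Collatz map. -/
theorem link (K x : ℕ) : ∃ y b : ℕ, S^[K] ((x : ℤ), 0) = ((y : ℤ), (b : ℤ)) ∧
    collatz^[K + b] x = y := by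
  induction K with
  | zero => exact ⟨x, 0, rfl, rfl⟩
  | succ K ih =>
    obtain ⟨y, b, h1, h2⟩ := ih
    rw [Function.iterate_succ_apply', h1]
    rcases Nat.even_or_odd' y with ⟨z, rfl | rfl⟩
    · refine ⟨z, b, ?_, ?_⟩
      · push_cast; rw [S_even]
      · rw [show K + 1 + b = (K + b) + 1 by ring, Function.iterate_succ_apply', h2]
        unfold collatz
        rw [if_pos (by omega)]; omega
    · refine ⟨3 * z + 2, b + 1, ?_, ?_⟩
      · push_cast; rw [S_odd]
      · rw [show K + 1 + (b + 1) = (K + b) + 1 + 1 by ring, Function.iterate_succ_apply',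
          Function.iterate_succ_apply', h2]
        have h3 : collatz (2 * z + 1) = 6 * z + 4 := by
          unfold collatz
          rw [if_neg (by omega)]; ring
        rw [h3]
        unfold collatz
        rw [if_pos (by omega)]; omega

theorem collatz_ge (j x : ℕ) : x ≤ 2 ^ j * collatz^[j] x := by
  induction j with
  | zero => simp
  | succ j ih =>
    rw [Function.iterate_succ_apply']
    have h : collatz^[j] x ≤ 2 * collatz (collatz^[j] x) := by
      generalize collatz^[j] x = y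
      unfold collatz
      split_ifs <;> omega
    calc x ≤ 2 ^ j * collatz^[j] x := ih
      _ ≤ 2 ^ j * (2 * collatz (collatz^[j] x)) := Nat.mul_le_mul_left _ h
      _ = 2 ^ (j + 1) * collatz (collatz^[j] x) := by ring

theorem collatz_two_pow (j : ℕ) : collatz^[j] (2 ^ j) = 1 := by
  induction j with
  | zero => rfl
  | succ j ih =>
    rw [Function.iterate_succ_apply]
    have : collatz (2 ^ (j + 1)) = 2 ^ j := by
      unfold collatz
      rw [pow_succ, if_pos (by omega)]; omega
    rw [this, ih]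

/-- **Garner's conjecture (1985).** For every `L` (and every bound `N`) there is an integer
`n ≥ 1` (with `n ≥ N`) such that `n, n + 1, …, n + L - 1` all have the same finite height. -/
theorem result (L N : ℕ) : ∃ n : ℕ, 1 ≤ n ∧ N ≤ n ∧
    ∃ k : ℕ, ∀ i : ℕ, i < L → height (n + i) = (k : ℕ∞) := by
  obtain ⟨K, r, hm⟩ := multi L
  obtain ⟨a, s, hs⟩ := periodic K r
  have h3 : a ≠ 0 → ¬ (3 : ℤ) ∣ s := by
    intro ha
    have h1 := (not_three_dvd K (2 ^ K * 0 + r)).2
    rw [hs 0] at h1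
    have h2 := h1 (by simpa using ha)
    simpa using h2
  -- choose the power of two
  obtain ⟨t, ht⟩ : ∃ t, t = K + a := ⟨_, rfl⟩
  obtain ⟨j, hj, hdvd⟩ := pow_two_mod_large a s h3
    ((3 ^ a * (N + r.natAbs + 2 ^ t + 1) + s.natAbs : ℕ))
  obtain ⟨m, hmm⟩ := hdvd
  have h2j : (2 : ℤ) ^ j = 3 ^ a * m + s := by linear_combination hmm
  have hjlt : ((3 ^ a * (N + r.natAbs + 2 ^ t + 1) + s.natAbs : ℕ) : ℤ) < 2 ^ j := by
    have : j < 2 ^ j := Nat.lt_two_pow_self
    have h5 : (3 ^ a * (N + r.natAbs + 2 ^ t + 1) + s.natAbs : ℕ) < 2 ^ j := by omega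
    exact_mod_cast h5
  have hmge : (N + r.natAbs + 2 ^ t + 1 : ℤ) ≤ m := by
    by_contra hc
    push Not at hc
    have h6 : (3 : ℤ) ^ a * m ≤ 3 ^ a * (N + r.natAbs + 2 ^ t + 1) :=
      mul_le_mul_of_nonneg_left hc.le (by positivity)
    have h7 : s ≤ |s| := le_abs_self s
    rw [h2j] at hjlt
    push_cast at hjlt h6
    linarith
  have hm0 : 0 ≤ m := by
    have : (0 : ℤ) ≤ (N + r.natAbs + 2 ^ t + 1 : ℤ) := by positivity
    linarith
  have h8 : m ≤ 2 ^ K * m := by
    have : (1 : ℤ) ≤ 2 ^ K := one_le_pow₀ (by norm_num)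
    nlinarith
  have h9 : -|r| ≤ r := neg_abs_le r
  have h10 : (N : ℤ) + 2 ^ t + 1 ≤ 2 ^ K * m + r := by
    push_cast at hmge
    linarith
  obtain ⟨n, hn⟩ : ∃ n : ℕ, (n : ℤ) = 2 ^ K * m + r :=
    ⟨(2 ^ K * m + r).toNat, Int.toNat_of_nonneg (by
      have : (0 : ℤ) ≤ (N : ℤ) + 2 ^ t + 1 := by positivity
      linarith)⟩
  have h11 : N + 2 ^ t + 1 ≤ n := by
    rw [← hn] at h10
    exact_mod_cast h10
  have hpos : 0 < 2 ^ t := by positivity
  have h15 : 1 ≤ n := le_trans (Nat.le_add_left 1 _) h11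
  have h16 : N ≤ n := le_trans (by rw [add_assoc]; exact Nat.le_add_right _ _) h11
  -- first hitting time of `1` from `2 ^ j`
  have hex : ∃ k, collatz^[k] (2 ^ j) = 1 := ⟨j, collatz_two_pow j⟩
  classical
  refine ⟨n, h15, h16, t + Nat.find hex, fun i hi => ?_⟩
  have hS : S^[K] (((n + i : ℕ) : ℤ), 0) = (((2 ^ j : ℕ) : ℤ), (a : ℤ)) := by
    push_cast
    rw [hn, hm m i hi, hs m, h2j]
  obtain ⟨y, b, h12, h13⟩ := link K (n + i)
  rw [hS] at h12
  have hy : y = 2 ^ j := by exact_mod_cast (Prod.mk.inj h12).1.symm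
  have hb : b = a := by exact_mod_cast (Prod.mk.inj h12).2.symm
  subst hy hb
  have h14 : collatz^[t] (n + i) = 2 ^ j := by rw [ht]; exact h13
  have hsplit : ∀ q, collatz^[t + q] (n + i) = collatz^[q] (2 ^ j) := by
    intro q
    rw [add_comm t q, Function.iterate_add_apply, h14]
  apply height_eq
  · rw [hsplit]
    exact Nat.find_spec hex
  · intro q hq
    by_cases hqt : q < t
    · intro h1
      have h2 := collatz_ge q (n + i)
      rw [h1, mul_one] at h2
      have h4 : 2 ^ q ≤ 2 ^ t := Nat.pow_le_pow_right (by norm_num) hqt.le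
      omega
    · obtain ⟨q', rfl⟩ := Nat.exists_eq_add_of_le (not_lt.1 hqt)
      rw [hsplit]
      exact Nat.find_min hex (by omega)

end Pool.Agent.Results.MP_e99302_nt.GarnerRuns
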